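import Mathlib

/-!
# MP_4d4a97_an: finitely many functions whose closure contains all its indefinite integrals

For every open interval `(a, b)` (bounded or not) there are three summable functions `f 0, f 1, f 2`
on `(a, b)` such that the smallest set `R` of functions which contains them and is closed under
rational combinations and composition contains, for every `g` in `R` and every interval `(α, β)` on
which `g` is summable, the indefinite integral of `g`.

Idea: `R` contains the restriction of every continuous function. Code the points `x` by reals `ψ x`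
and the continuous functions `F` by reals `c F` so that all `ψ x + c F` are different elements of one
null set `N`; the function `φ` with `φ (ψ x + c F) = F x`, `φ = 0` off `N`, is summable.
-/

set_option autoImplicit false

open MeasureTheory Set Filter Topology Cardinal

namespace Pool.Agent.Results.MP_4d4a97_an.ClosedUnderIntegration

/-- The open interval `(a, b)` of the real line, `-∞ ≤ a`, `b ≤ ∞`. -/
def interval (a b : EReal) : Set ℝ := {x : ℝ | a < x ∧ (x : EReal) < b}

/-- The restriction of a function to the interval `(a, b)`, as a partial function. -/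
def onInterval (a b : EReal) (f : ℝ → ℝ) : ℝ →. ℝ := fun x => ⟨x ∈ interval a b, fun _ => f x⟩

/-- The rational combination `P(g_1, …, g_m) / Q(g_1, …, g_m)`: it is defined at those points of
`(a, b)` where all `g_j` are defined and `Q(g_1, …, g_m)` does not vanish. -/
noncomputable def ratComb (a b : EReal) {m : ℕ} (P Q : MvPolynomial (Fin m) ℝ)
    (g : Fin m → ℝ →. ℝ) : ℝ →. ℝ := fun x =>
  ⟨x ∈ interval a b ∧ ∃ h : ∀ j, (g j x).Dom,
      MvPolynomial.eval (fun j => (g j x).get (h j)) Q ≠ 0,
    fun h => MvPolynomial.eval (fun j => (g j x).get (h.2.1 j)) P /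
      MvPolynomial.eval (fun j => (g j x).get (h.2.1 j)) Q⟩

/-- `R(f_1, …, f_n)`: the smallest set of real partial functions that contains the `f_i` (as
functions on `(a, b)`) and is closed under rational combinations and under composition
(`PFun.comp h k` is `x ↦ h (k x)`, defined where `k x` is defined and belongs to the domain of
`h`). -/
inductive InR (a b : EReal) {n : ℕ} (f : Fin n → ℝ → ℝ) : (ℝ →. ℝ) → Prop
  | gen (i : Fin n) : InR a b f (onInterval a b (f i))
  | rat {m : ℕ} (P Q : MvPolynomial (Fin m) ℝ) (g : Fin m → ℝ →. ℝ) (hg : ∀ j, InR a b f (g j)) :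
      InR a b f (ratComb a b P Q g)
  | comp (h k : ℝ →. ℝ) (hh : InR a b f h) (hk : InR a b f k) : InR a b f (PFun.comp h k)

open Classical in
/-- The value of a partial function, `0` where it is not defined. -/
noncomputable def val (g : ℝ →. ℝ) (x : ℝ) : ℝ := if h : (g x).Dom then (g x).get h else 0

/-- `g` is defined almost everywhere and summable on `(α, β)`. -/
def SummableOn (g : ℝ →. ℝ) (α β : EReal) : Prop :=
  (∀ᵐ x ∂volume.restrict (interval α β), (g x).Dom) ∧ IntegrableOn (val g) (interval α β)

/-! ### The null set -/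

/-- the numbers with digits `0`, `1` in base `4` -/
noncomputable def cf (e : ℕ → Bool) : ℝ := cantorFunction (1 / 4) e

lemma cf_inj : Function.Injective cf := cantorFunction_injective (by norm_num) (by norm_num)

lemma cf_succ (e : ℕ → Bool) : cf e = cond (e 0) 1 0 + 1 / 4 * cf fun n => e (n + 1) :=
  cantorFunction_succ e (by norm_num) (by norm_num)

lemma cf_bounds (e : ℕ → Bool) : 0 ≤ cf e ∧ cf e ≤ 4 / 3 := by
  constructor
  · exact tsum_nonneg fun n => cantorFunctionAux_nonneg (by norm_num)
  · have h1 : cf e ≤ cantorFunction (1 / 4) (fun _ => true) :=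
      cantorFunction_le (by norm_num) (by norm_num) fun n _ => rfl
    refine h1.trans (le_of_eq ?_)
    unfold cantorFunction
    simp_rw [cantorFunctionAux_true (c := (1 / 4 : ℝ)) (f := fun _ => true) rfl]
    rw [tsum_geometric_of_lt_one (by norm_num) (by norm_num)]
    norm_num

lemma cf_meas : Measurable cf := by
  have hc : Continuous cf := by
    unfold cf cantorFunction
    refine continuous_tsum (u := fun n => (1 / 4 : ℝ) ^ n) (fun n => ?_)
      (summable_geometric_of_lt_one (by norm_num) (by norm_num)) fun n e => ?_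
    · unfold cantorFunctionAux
      exact (continuous_of_discreteTopology (f := fun b : Bool => cond b ((1 / 4 : ℝ) ^ n) 0)).comp
        (continuous_apply n)
    · rw [Real.norm_of_nonneg (cantorFunctionAux_nonneg (by norm_num))]
      unfold cantorFunctionAux
      cases e n <;> simp
  exact hc.measurable

lemma null_range : volume (range cf) = 0 := by
  set K := range cf with hK
  have hsub : K ⊆ (fun x => 1 / 4 * x) '' K ∪ (fun x => 1 + 1 / 4 * x) '' K := by
    rintro _ ⟨e, rfl⟩
    rw [cf_succ]
    cases e 0
    · left; exact ⟨_, ⟨fun n => e (n + 1), rfl⟩, by simp⟩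
    · right; exact ⟨_, ⟨fun n => e (n + 1), rfl⟩, by simp⟩
  have hfin : volume K ≠ ⊤ := by
    have : K ⊆ Icc 0 (4 / 3) := by
      rintro _ ⟨e, rfl⟩
      exact cf_bounds e
    exact ((measure_mono this).trans_lt (by simp)).ne
  have h1 : volume ((fun x : ℝ => 1 / 4 * x) '' K) = ENNReal.ofReal (1 / 4) * volume K := by
    have := Measure.addHaar_smul (volume : Measure ℝ) (1 / 4 : ℝ) K
    simp only [Module.finrank_self, pow_one] at this
    rw [abs_of_pos (by norm_num)] at this
    exact this
  have h2 : volume ((fun x : ℝ => 1 + 1 / 4 * x) '' K) = ENNReal.ofReal (1 / 4) * volume K := by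
    have e : (fun x : ℝ => 1 + 1 / 4 * x) '' K = (fun x => 1 + x) '' ((fun x : ℝ => 1 / 4 * x) '' K) := by
      rw [image_image]
    rw [e, ← h1, Set.image_add_left, measure_preimage_add]
  have h3 : volume K ≤ ENNReal.ofReal (1 / 2) * volume K := by
    calc volume K ≤ volume ((fun x : ℝ => 1 / 4 * x) '' K ∪ (fun x : ℝ => 1 + 1 / 4 * x) '' K) :=
          measure_mono hsub
      _ ≤ _ := measure_union_le _ _
      _ = ENNReal.ofReal (1 / 2) * volume K := by
          rw [h1, h2, ← add_mul, ← ENNReal.ofReal_add (by norm_num) (by norm_num)]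
          norm_num
  by_contra h0
  have h4 : volume K = ENNReal.ofReal (volume K).toReal := (ENNReal.ofReal_toReal hfin).symm
  have h5 : 0 < (volume K).toReal := ENNReal.toReal_pos h0 hfin
  rw [h4, ← ENNReal.ofReal_mul (by norm_num), ENNReal.ofReal_le_ofReal_iff (by positivity)] at h3
  linarith

/-! ### Codes -/

/-- continuous functions can be coded by sequences of digits -/
lemma exists_code : ∃ c : C(ℝ, ℝ) → (ℕ → Bool), Function.Injective c := by
  have h1 : Function.Injective (fun F : C(ℝ, ℝ) => fun q : ℚ => F q) := by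
    intro F G hFG
    apply ContinuousMap.coe_injective
    exact Continuous.ext_on Rat.denseRange_cast F.continuous G.continuous (by
      rintro _ ⟨q, rfl⟩
      exact congrFun hFG q)
  have h2 : #(ℚ → ℝ) ≤ #(ℕ → Bool) := by
    have e1 : #(ℚ → ℝ) = 𝔠 := by
      rw [← power_def, mk_real, Cardinal.mkRat, continuum_power_aleph0]
    have e2 : #(ℕ → Bool) = 𝔠 := by
      rw [← power_def, mk_bool, mk_nat, two_power_aleph0]
    rw [e1, e2]
  obtain ⟨f⟩ := h2
  exact ⟨fun F => f (fun q => F q), f.injective.comp h1⟩

/-- points can be coded measurably by sequences of digits -/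
lemma exists_digits : ∃ d : ℝ → (ℕ → Bool), Measurable d ∧ Function.Injective d := by
  obtain ⟨f, h1, h2⟩ := MeasurableSpace.measurable_injection_nat_bool_of_countablySeparated ℝ
  exact ⟨f, h1, h2⟩

/-- digits at even places -/
def ev (e : ℕ → Bool) : ℕ → Bool := fun n => if Even n then e (n / 2) else false
/-- digits at odd places -/
def od (e : ℕ → Bool) : ℕ → Bool := fun n => if Even n then false else e (n / 2)
/-- both -/
def mix (e e' : ℕ → Bool) : ℕ → Bool := fun n => if Even n then e (n / 2) else e' (n / 2)

lemma mix_inj {e e' g g' : ℕ → Bool} (h : mix e e' = mix g g') : e = g ∧ e' = g' := by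
  constructor
  · ext n
    have := congrFun h (2 * n)
    simpa [mix] using this
  · ext n
    have := congrFun h (2 * n + 1)
    have h1 : ¬ Even (2 * n + 1) := by rw [Nat.not_even_iff_odd]; exact odd_two_mul_add_one n
    have h2 : (2 * n + 1) / 2 = n := by omega
    simpa [mix, h1, h2] using this

lemma cf_mix (e e' : ℕ → Bool) : cf (mix e e') = cf (ev e) + cf (od e') := by
  unfold cf cantorFunction
  rw [← (summable_cantor_function (ev e) (by norm_num) (by norm_num)).tsum_add
    (summable_cantor_function (od e') (by norm_num) (by norm_num))]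
  congr 1
  ext n
  unfold cantorFunctionAux mix ev od
  by_cases h : Even n <;> simp [h]

lemma ev_meas : Measurable ev := by
  rw [measurable_pi_iff]
  intro n
  unfold ev
  by_cases h : Even n
  · simp only [h, if_true]
    exact measurable_pi_apply _
  · simp only [h, if_false]
    exact measurable_const

/-- A rational point `p` and `q > 0` with `[p, p + 2 q]` inside `(a, b)`. -/
lemma exists_room {a b : EReal} (hab : a < b) : ∃ p q : ℝ, 0 < q ∧
    ∀ t : ℝ, 0 ≤ t → t ≤ 4 / 3 → p + q * t ∈ interval a b := by
  obtain ⟨x, hax, hxb⟩ := EReal.lt_iff_exists_real_btwn.1 hab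
  obtain ⟨y, hxy, hyb⟩ := EReal.lt_iff_exists_real_btwn.1 hxb
  have hxy' : x < y := by exact_mod_cast hxy
  refine ⟨x, (y - x) / 2, by linarith, fun t h0 h1 => ⟨?_, ?_⟩⟩
  · refine hax.trans_le ?_
    have : x ≤ x + (y - x) / 2 * t := by nlinarith
    exact_mod_cast this
  · refine lt_of_le_of_lt ?_ hyb
    have : x + (y - x) / 2 * t ≤ y := by nlinarith
    exact_mod_cast this

lemma interval_meas (a b : EReal) : MeasurableSet (interval a b) := by
  unfold interval
  apply MeasurableSet.inter
  · exact measurableSet_lt measurable_const measurable_coe_real_ereal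
  · exact measurableSet_lt measurable_coe_real_ereal measurable_const

lemma mem_interval {a b : EReal} {x : ℝ} : x ∈ interval a b ↔ a < x ∧ (x : EReal) < b := Iff.rfl

/-- Extension of an indefinite integral to a continuous function on the line. -/
lemma exists_primitive (g : ℝ →. ℝ) (α β : EReal) (h : SummableOn g α β) :
    ∃ F : C(ℝ, ℝ), ∀ x ∈ interval α β, F x = ∫ t in interval α x, val g t := by
  set u : ℝ → ℝ := (interval α β).indicator (val g) with hu
  have hui : Integrable u := (integrable_indicator_iff (interval_meas α β)).2 h.2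
  have hcont : Continuous fun x : ℝ => ∫ t in Iic x, u t := by
    have h1 : ∀ x : ℝ, ∫ t in Iic x, u t = (∫ t in Iic (0 : ℝ), u t) + ∫ t in (0 : ℝ)..x, u t := by
      intro x
      rw [← intervalIntegral.integral_Iic_sub_Iic hui.integrableOn hui.integrableOn]
      ring
    rw [funext h1]
    exact continuous_const.add (intervalIntegral.continuous_primitive
      (fun a b => hui.intervalIntegrable) 0)
  refine ⟨⟨_, hcont⟩, fun x hx => ?_⟩
  simp only [ContinuousMap.coe_mk]
  rw [hu, setIntegral_indicator (interval_meas α β)]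
  have h2 : (Iic x ∩ interval α β : Set ℝ) =ᵐ[volume] interval α x := by
    have h3 : (Iic x ∩ interval α β : Set ℝ) = interval α x ∪ {x} := by
      ext t
      rw [mem_inter_iff, mem_Iic, mem_union, mem_singleton_iff, mem_interval, mem_interval]
      constructor
      · rintro ⟨h4, h5, h6⟩
        rcases h4.lt_or_eq with h7 | h7
        · left; exact ⟨h5, by exact_mod_cast h7⟩
        · right; exact h7
      · rintro (⟨h4, h5⟩ | rfl)
        · exact ⟨by exact_mod_cast h5.le, h4, h5.trans hx.2⟩
        · exact ⟨le_rfl, hx.1, hx.2⟩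
    rw [h3]
    exact union_ae_eq_left_of_ae_eq_empty (ae_eq_empty.2 (measure_singleton x))
  exact setIntegral_congr_set h2

/-- The three functions, and the fact that every continuous function belongs to `R`. -/
lemma exists_three {a b : EReal} (hab : a < b) : ∃ f : Fin 3 → ℝ → ℝ,
    (∀ i, IntegrableOn (f i) (interval a b)) ∧
    ∀ F : C(ℝ, ℝ), ∃ h : ℝ →. ℝ, InR a b f h ∧ ∀ x ∈ interval a b, F x ∈ h x := by
  classical
  obtain ⟨p, q, hq, hroom⟩ := exists_room hab
  obtain ⟨code, hcode⟩ := exists_code
  obtain ⟨d, hdm, hdi⟩ := exists_digits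
  -- the codes of the points and of the functions
  set ψ : ℝ → ℝ := fun x => p + q * cf (ev (d x)) with hψ
  set c : C(ℝ, ℝ) → ℝ := fun F => q * cf (od (code F)) with hc
  have hsum : ∀ x F, ψ x + c F = p + q * cf (mix (d x) (code F)) := by
    intro x F
    rw [hψ, hc, cf_mix]
    ring
  have hinj : ∀ x F y G, ψ x + c F = ψ y + c G → x = y ∧ F = G := by
    intro x F y G h
    rw [hsum, hsum] at h
    have h1 : cf (mix (d x) (code F)) = cf (mix (d y) (code G)) := by
      have := add_left_cancel h
      exact mul_left_cancel₀ hq.ne' this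
    obtain ⟨h2, h3⟩ := mix_inj (cf_inj h1)
    exact ⟨hdi h2, hcode h3⟩
  have hmem : ∀ x F, ψ x + c F ∈ interval a b := by
    intro x F
    rw [hsum]
    exact hroom _ (cf_bounds _).1 (cf_bounds _).2
  -- the decoding function
  set φ : ℝ → ℝ := fun s => if h : ∃ r : ℝ × C(ℝ, ℝ), s = ψ r.1 + c r.2 then
    h.choose.2 h.choose.1 else 0 with hφ
  have hφval : ∀ x F, φ (ψ x + c F) = F x := by
    intro x F
    have hex : ∃ r : ℝ × C(ℝ, ℝ), ψ x + c F = ψ r.1 + c r.2 := ⟨(x, F), rfl⟩
    have h1 : φ (ψ x + c F) = hex.choose.2 hex.choose.1 := by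
      simp only [hφ]
      rw [dif_pos hex]
    obtain ⟨h2, h3⟩ := hinj _ _ _ _ hex.choose_spec
    rw [h1, ← h2, ← h3]
  have hφ0 : φ =ᵐ[volume] fun _ => (0 : ℝ) := by
    have hnull : volume ((fun t => p + q * t) '' range cf) = 0 := by
      have e : (fun t => p + q * t) '' range cf = (fun t => p + t) '' ((fun t => q * t) '' range cf) := by
        rw [image_image]
      have h1 : volume ((fun t : ℝ => q * t) '' range cf) = 0 := by
        have := Measure.addHaar_smul (volume : Measure ℝ) q (range cf)
        rw [null_range, mul_zero] at this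
        exact this
      rw [e, Set.image_add_left, measure_preimage_add, h1]
    have hsub : {s | ¬ (φ s = 0)} ⊆ (fun t => p + q * t) '' range cf := by
      intro s hs
      rw [mem_ofPred_eq] at hs
      by_contra hcon
      apply hs
      simp only [hφ]
      rw [dif_neg]
      rintro ⟨r, hr⟩
      apply hcon
      rw [hr, hsum]
      exact ⟨_, ⟨_, rfl⟩, rfl⟩
    exact measure_mono_null hsub hnull
  set w : ℝ → ℝ := fun x => (1 + x ^ 2)⁻¹ with hw
  have hwpos : ∀ x, 0 < w x := fun x => by rw [hw]; positivity
  have hwint : Integrable w := integrable_inv_one_add_sq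
  have hψm : Measurable ψ := by
    rw [hψ]
    exact measurable_const.add (measurable_const.mul (cf_meas.comp (ev_meas.comp hdm)))
  have hψb : ∀ x, ‖ψ x‖ ≤ |p| + q * (4 / 3) := by
    intro x
    rw [hψ]
    have h1 := cf_bounds (ev (d x))
    calc ‖p + q * cf (ev (d x))‖ ≤ ‖p‖ + ‖q * cf (ev (d x))‖ := norm_add_le _ _
      _ ≤ |p| + q * (4 / 3) := by
          rw [Real.norm_eq_abs, Real.norm_of_nonneg (mul_nonneg hq.le h1.1)]
          gcongr
          exact h1.2
  set f : Fin 3 → ℝ → ℝ := ![fun x => ψ x * w x, w, φ] with hf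
  refine ⟨f, ?_, fun F => ?_⟩
  · intro i
    fin_cases i
    · exact (hwint.bdd_mul hψm.aestronglyMeasurable (Filter.Eventually.of_forall hψb)).integrableOn
    · exact hwint.integrableOn
    · exact ((integrable_zero ℝ ℝ volume).congr hφ0.symm).integrableOn
  · have hg1 : ∀ j : Fin 2, InR a b f ((![onInterval a b (f 0), onInterval a b (f 1)] :
        Fin 2 → ℝ →. ℝ) j) := by
      intro j
      fin_cases j
      · exact InR.gen 0
      · exact InR.gen 1
    refine ⟨PFun.comp (onInterval a b (f 2)) (ratComb a b
      (MvPolynomial.X 0 + MvPolynomial.C (c F) * MvPolynomial.X 1) (MvPolynomial.X 1)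
      ![onInterval a b (f 0), onInterval a b (f 1)]),
      InR.comp _ _ (InR.gen 2) (InR.rat _ _ _ hg1), fun x hx => ?_⟩
    rw [PFun.comp_apply]
    refine Part.mem_bind (a := ψ x + c F) ?_ ?_
    · have hdom : ∀ j : Fin 2, ((![onInterval a b (f 0), onInterval a b (f 1)] :
          Fin 2 → ℝ →. ℝ) j x).Dom := by
        intro j
        fin_cases j
        · exact hx
        · exact hx
      refine ⟨⟨hx, hdom, ?_⟩, ?_⟩
      · simp only [MvPolynomial.eval_X]
        exact (hwpos x).ne'
      · simp only [ratComb, MvPolynomial.eval_X, map_add, map_mul, MvPolynomial.eval_C]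
        change (ψ x * w x + c F * w x) / w x = ψ x + c F
        have := (hwpos x).ne'
        field_simp
    · refine ⟨hmem x F, ?_⟩
      exact hφval x F

/-- **Main theorem.** For every interval `(a, b)` there are three functions, finite and summable on
`(a, b)`, such that for every `g` in `R` and every `(α, β) ⊆ (a, b)` on which `g` is summable the
indefinite integral of `g` on `(α, β)` belongs to `R`. -/
theorem result : ∀ a b : EReal, a < b → ∃ f : Fin 3 → ℝ → ℝ,
    (∀ i, IntegrableOn (f i) (interval a b)) ∧
    ∀ g : ℝ →. ℝ, InR a b f g → ∀ α β : EReal, α < β → interval α β ⊆ interval a b →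
      SummableOn g α β →
      ∃ h : ℝ →. ℝ, InR a b f h ∧
        ∀ x ∈ interval α β, (∫ t in interval α x, val g t) ∈ h x := by
  intro a b hab
  obtain ⟨f, hf1, hf2⟩ := exists_three hab
  refine ⟨f, hf1, fun g hg α β hαβ hsub hsum => ?_⟩
  obtain ⟨F, hF⟩ := exists_primitive g α β hsum
  obtain ⟨h, h1, h2⟩ := hf2 F
  refine ⟨h, h1, fun x hx => ?_⟩
  rw [← hF x hx]
  exact h2 x (hsub hx)

end Pool.Agent.Results.MP_4d4a97_an.ClosedUnderIntegration
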